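import Pool.Agent.V5helper14.Sep.Stm

/-!
# Project SE (helper14): job L3
-/

set_option autoImplicit false

namespace Pool.Agent.V5helper6.SE

open Matrix hiding row
open Filter Pool.Agent.V5helper14.Hel Pool.Agent.V5helper14.Sep
open scoped Topology

theorem aff_iff {ι : Type*} [Fintype ι] {V : Type*} [AddCommGroup V] [Module ℝ V] (p : ι → V) :
    AffineIndependent ℝ p ↔ ∀ w : ι → ℝ, ∑ i, w i = 0 → ∑ i, w i • p i = 0 → ∀ i, w i = 0 := by
  rw [affineIndependent_iff]
  constructor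
  · intro h w h1 h2 i
    exact h Finset.univ w h1 h2 i (Finset.mem_univ i)
  · intro h s w h1 h2 e he
    classical
    have := h (fun i => if i ∈ s then w i else 0) (by simpa using h1) (by simpa [ite_smul] using h2) e
    simpa [he] using this

theorem caseB (n d m : ℕ) (a : Fin n → Set (Fin d → ℝ)) (ha : ∀ i, IsCompact (a i))
    (hs : Separated m a) (f : Fin (m + 3) → Fin n) (hf : Function.Injective f) :
    ∀ᶠ Γ : ℝ in atTop, ∀ X : Fin (m + 3) → Fin d → ℝ, (∀ i, X i ∈ a (f i)) →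
      ∀ μ : Fin (m + 3) → ℝ, ∑ i, μ i = 0 → ∑ i, μ i • X i = 0 →
      ∑ i, μ i * Γ ^ (f i : ℕ) = 0 → μ = 0 := by
  obtain ⟨t, ht⟩ : ∃ t, ∀ i, f i ≤ f t := Finite.exists_max f
  have hlt : ∀ i, i ≠ t → (f i : ℕ) + 1 ≤ (f t : ℕ) := by
    intro i hi
    have h1 : f i < f t := lt_of_le_of_ne (ht i) (fun h => hi (hf h))
    exact h1
  let K : Set ((Fin (m + 3) → Fin d → ℝ) × (Fin (m + 3) → ℝ)) :=
    (Set.pi Set.univ (fun i => a (f i))) ×ˢ (Metric.sphere 0 1) ∩
      {z | ∑ i, z.2 i = 0 ∧ ∑ i, z.2 i • z.1 i = 0}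
  have hKc : IsCompact K := by
    apply IsCompact.inter_right
    · exact (isCompact_univ_pi (fun i => ha (f i))).prod (isCompact_sphere 0 1)
    · apply IsClosed.and
      · exact isClosed_eq (by fun_prop) continuous_const
      · exact isClosed_eq (by fun_prop) continuous_const
  have hpos : ∀ z ∈ K, 0 < |z.2 t| := by
    rintro ⟨X, μ⟩ ⟨⟨hX, hμ⟩, h1, h2⟩
    rw [abs_pos]
    intro h0
    simp only at h0 h1 h2 hX hμ
    have aff := hs (f ∘ t.succAbove) (hf.comp Fin.succAbove_right_injective) (X ∘ t.succAbove)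
      (fun i => hX (t.succAbove i) trivial)
    rw [aff_iff] at aff
    rw [Fin.sum_univ_succAbove _ t, h0, zero_add] at h1
    rw [Fin.sum_univ_succAbove _ t, h0, zero_smul, zero_add] at h2
    have h3 := aff (fun l => μ (t.succAbove l)) h1 h2
    have h4 : μ = 0 := by
      funext i
      rcases Fin.eq_self_or_eq_succAbove t i with h | ⟨j, h⟩
      · rw [h, h0]; rfl
      · rw [h]; exact h3 j
    rw [h4, mem_sphere_iff_norm, sub_zero, norm_zero] at hμ
    norm_num at hμ
  obtain ⟨δ, hδ, hδK⟩ := hKc.exists_forall_le' (f := fun z => |z.2 t|) (by fun_prop) hpos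
  filter_upwards [eventually_gt_atTop (max 1 (((m : ℝ) + 3) / δ))] with Γ hΓ
  intro X hX μ h1 h2 h3
  by_contra hμ
  have hΓ1 : 1 < Γ := lt_of_le_of_lt (le_max_left _ _) hΓ
  have hΓ2 : ((m : ℝ) + 3) / δ < Γ := lt_of_le_of_lt (le_max_right _ _) hΓ
  have hn : 0 < ‖μ‖ := norm_pos_iff.2 hμ
  set ν : Fin (m + 3) → ℝ := ‖μ‖⁻¹ • μ with hν
  have hν1 : ‖ν‖ = 1 := by
    rw [hν, norm_smul, norm_inv, norm_norm, inv_mul_cancel₀ hn.ne']
  have hνi : ∀ i, ν i = ‖μ‖⁻¹ * μ i := fun i => rfl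
  have hK : (X, ν) ∈ K := by
    refine ⟨⟨fun i _ => hX i, ?_⟩, ?_, ?_⟩
    · rw [mem_sphere_iff_norm, sub_zero]; exact hν1
    · simp only [hνi]
      rw [← Finset.mul_sum, h1, mul_zero]
    · simp only [hνi, mul_smul]
      rw [← Finset.smul_sum, h2, smul_zero]
  have h4 : δ ≤ |ν t| := hδK _ hK
  have h5 : ∑ i, ν i * Γ ^ (f i : ℕ) = 0 := by
    simp only [hνi, mul_assoc]
    rw [← Finset.mul_sum, h3, mul_zero]
  have h6 : ∀ i, |ν i| ≤ 1 := by
    intro i
    have := norm_le_pi_norm ν i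
    rwa [hν1, Real.norm_eq_abs] at this
  rw [Fin.sum_univ_succAbove _ t] at h5
  have h7 : |ν t| * Γ ^ (f t : ℕ) ≤ ∑ l : Fin (m + 2), Γ ^ (f (t.succAbove l) : ℕ) := by
    calc |ν t| * Γ ^ (f t : ℕ) = |ν t * Γ ^ (f t : ℕ)| := by
          rw [abs_mul, abs_of_pos (show 0 < Γ ^ (f t : ℕ) by positivity)]
      _ = |∑ l : Fin (m + 2), ν (t.succAbove l) * Γ ^ (f (t.succAbove l) : ℕ)| := by
          rw [eq_neg_of_add_eq_zero_left h5, abs_neg]
      _ ≤ ∑ l : Fin (m + 2), |ν (t.succAbove l) * Γ ^ (f (t.succAbove l) : ℕ)| :=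
          Finset.abs_sum_le_sum_abs _ _
      _ ≤ ∑ l : Fin (m + 2), Γ ^ (f (t.succAbove l) : ℕ) := by
          apply Finset.sum_le_sum
          intro l _
          rw [abs_mul, abs_of_pos (show 0 < Γ ^ (f (t.succAbove l) : ℕ) by positivity)]
          have := h6 (t.succAbove l)
          have h8 : 0 < Γ ^ (f (t.succAbove l) : ℕ) := by positivity
          nlinarith
  have h8 : (∑ l : Fin (m + 2), Γ ^ (f (t.succAbove l) : ℕ)) * Γ ≤ ((m : ℝ) + 2) * Γ ^ (f t : ℕ) := by
    rw [Finset.sum_mul]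
    calc ∑ l : Fin (m + 2), Γ ^ (f (t.succAbove l) : ℕ) * Γ ≤ ∑ l : Fin (m + 2), Γ ^ (f t : ℕ) := by
          apply Finset.sum_le_sum
          intro l _
          rw [← pow_succ]
          exact pow_le_pow_right₀ hΓ1.le (hlt _ (Fin.succAbove_ne t l))
      _ = ((m : ℝ) + 2) * Γ ^ (f t : ℕ) := by
          rw [Finset.sum_const, Finset.card_univ, Fintype.card_fin, nsmul_eq_mul]
          push_cast
          ring
  have h9 : 0 < Γ ^ (f t : ℕ) := by positivity
  have h10 : δ * Γ * Γ ^ (f t : ℕ) ≤ ((m : ℝ) + 2) * Γ ^ (f t : ℕ) := by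
    calc δ * Γ * Γ ^ (f t : ℕ) = (δ * Γ ^ (f t : ℕ)) * Γ := by ring
      _ ≤ (|ν t| * Γ ^ (f t : ℕ)) * Γ := by
          apply mul_le_mul_of_nonneg_right _ (by linarith)
          exact mul_le_mul_of_nonneg_right h4 h9.le
      _ ≤ (∑ l : Fin (m + 2), Γ ^ (f (t.succAbove l) : ℕ)) * Γ :=
          mul_le_mul_of_nonneg_right h7 (by linarith)
      _ ≤ _ := h8
  have h11 := le_of_mul_le_mul_right h10 h9
  rw [div_lt_iff₀ hδ] at hΓ2
  nlinarith

theorem mem_liftA_castSucc {n d : ℕ} (Γ : ℝ) (a : Fin n → Set (Fin d → ℝ)) (j : Fin n) (x : Fin (d + 1) → ℝ)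
    (h : x ∈ liftA Γ a j.castSucc) : ∃ X ∈ a j, liftPt (Γ ^ (j : ℕ)) X = x := by
  unfold liftA at h
  rw [Fin.snoc_castSucc] at h
  exact h

theorem mem_liftA_last {n d : ℕ} (Γ : ℝ) (a : Fin n → Set (Fin d → ℝ)) (x : Fin (d + 1) → ℝ)
    (h : x ∈ liftA Γ a (Fin.last n)) : x = apex d := by
  unfold liftA at h
  rw [Fin.snoc_last] at h
  exact h

theorem liftPt_castSucc' {d : ℕ} (γ : ℝ) (X : Fin d → ℝ) (b : Fin d) :
    liftPt γ X b.castSucc = (1 + γ)⁻¹ * X b := by
  unfold liftPt; rw [Fin.snoc_castSucc]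

theorem liftPt_last' {d : ℕ} (γ : ℝ) (X : Fin d → ℝ) :
    liftPt γ X (Fin.last d) = (1 + γ)⁻¹ * γ := by
  unfold liftPt; rw [Fin.snoc_last]

theorem t_L3 : S_L3 := by
  intro n d m a ha hs
  have hB : ∀ᶠ Γ : ℝ in atTop, ∀ f : Fin (m + 3) → Fin n, Function.Injective f →
      ∀ X : Fin (m + 3) → Fin d → ℝ, (∀ i, X i ∈ a (f i)) →
      ∀ μ : Fin (m + 3) → ℝ, ∑ i, μ i = 0 → ∑ i, μ i • X i = 0 →
      ∑ i, μ i * Γ ^ (f i : ℕ) = 0 → μ = 0 := by
    rw [eventually_all]
    intro f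
    by_cases hf : Function.Injective f
    · filter_upwards [caseB n d m a ha hs f hf] with Γ h _
      exact h
    · exact Eventually.of_forall (fun Γ h => absurd h hf)
  filter_upwards [hB, eventually_gt_atTop (0 : ℝ)] with Γ hΓ hΓ0
  intro f hf x hx
  rw [aff_iff]
  intro w h1 h2
  have hc1 : ∀ b : Fin d, ∑ i, w i * x i b.castSucc = 0 := by
    intro b
    have := congrFun h2 b.castSucc
    simpa using this
  have hc2 : ∑ i, w i * x i (Fin.last d) = 0 := by
    have := congrFun h2 (Fin.last d)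
    simpa using this
  by_cases hl : ∃ i₀, f i₀ = Fin.last n
  · obtain ⟨i₀, hi₀⟩ := hl
    have hne : ∀ l, f (i₀.succAbove l) ≠ Fin.last n := by
      intro l h
      rw [← hi₀] at h
      exact Fin.succAbove_ne i₀ l (hf h)
    choose f' hf' using fun l => Fin.exists_castSucc_eq.2 (hne l)
    have hinj : Function.Injective f' := by
      intro l l' h
      have : f (i₀.succAbove l) = f (i₀.succAbove l') := by rw [← hf', ← hf', h]
      exact Fin.succAbove_right_injective (hf this)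
    choose X hX1 hX2 using fun l => mem_liftA_castSucc Γ a (f' l) (x (i₀.succAbove l)) (by
      rw [hf']; exact hx _)
    have hap : x i₀ = apex d := mem_liftA_last Γ a _ (by rw [← hi₀]; exact hx _)
    have aff := hs f' hinj X hX1
    rw [aff_iff] at aff
    have ha1 : ∀ b : Fin d, apex d b.castSucc = 0 := by
      intro b; unfold apex; rw [Fin.snoc_castSucc]; rfl
    have ha2 : apex d (Fin.last d) = 1 := by unfold apex; rw [Fin.snoc_last]
    rw [Fin.sum_univ_succAbove _ i₀] at h1 hc2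
    have hμ := aff (fun l => w (i₀.succAbove l) * (1 + Γ ^ (f' l : ℕ))⁻¹) (by
      have e1 : ∀ l, w (i₀.succAbove l) * (1 + Γ ^ (f' l : ℕ))⁻¹ =
          w (i₀.succAbove l) - w (i₀.succAbove l) * x (i₀.succAbove l) (Fin.last d) := by
        intro l
        rw [← hX2 l, liftPt_last']
        have : 1 + Γ ^ (f' l : ℕ) ≠ 0 := by positivity
        field_simp
        ring
      simp only [e1, Finset.sum_sub_distrib]
      rw [hap, ha2, mul_one] at hc2
      linarith) (by
      funext b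
      have h3 := hc1 b
      rw [Fin.sum_univ_succAbove _ i₀, hap, ha1, mul_zero, zero_add] at h3
      rw [Finset.sum_apply, Pi.zero_apply, ← h3]
      apply Finset.sum_congr rfl
      intro l _
      rw [← hX2 l, liftPt_castSucc', Pi.smul_apply, smul_eq_mul]
      ring)
    have hw : ∀ l, w (i₀.succAbove l) = 0 := by
      intro l
      have h3 := hμ l
      have : (1 + Γ ^ (f' l : ℕ))⁻¹ ≠ 0 := by positivity
      exact (mul_eq_zero.1 h3).resolve_right this
    intro i
    rcases Fin.eq_self_or_eq_succAbove i₀ i with h | ⟨j, h⟩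
    · rw [h]
      rw [Finset.sum_eq_zero (fun l _ => hw l), add_zero] at h1
      exact h1
    · rw [h]; exact hw j
  · push Not at hl
    choose f' hf' using fun l => Fin.exists_castSucc_eq.2 (hl l)
    have hinj : Function.Injective f' := by
      intro l l' h
      have : f l = f l' := by rw [← hf', ← hf', h]
      exact hf this
    choose X hX1 hX2 using fun l => mem_liftA_castSucc Γ a (f' l) (x l) (by
      rw [hf']; exact hx _)
    have e1 : ∀ l, w l * (1 + Γ ^ (f' l : ℕ))⁻¹ = w l - w l * x l (Fin.last d) := by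
      intro l
      rw [← hX2 l, liftPt_last']
      have : 1 + Γ ^ (f' l : ℕ) ≠ 0 := by positivity
      field_simp
      ring
    have hμ := hΓ f' hinj X hX1 (fun l => w l * (1 + Γ ^ (f' l : ℕ))⁻¹) (by
      simp only [e1, Finset.sum_sub_distrib]
      rw [h1, hc2, sub_zero]) (by
      funext b
      have h3 := hc1 b
      rw [Finset.sum_apply, Pi.zero_apply, ← h3]
      apply Finset.sum_congr rfl
      intro l _
      rw [← hX2 l, liftPt_castSucc', Pi.smul_apply, smul_eq_mul]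
      ring) (by
      rw [← hc2]
      apply Finset.sum_congr rfl
      intro l _
      rw [← hX2 l, liftPt_last']
      ring)
    intro i
    have h3 := congrFun hμ i
    have : (1 + Γ ^ (f' i : ℕ))⁻¹ ≠ 0 := by positivity
    exact (mul_eq_zero.1 h3).resolve_right this

end Pool.Agent.V5helper6.SE
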