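import Pool.Agent.V5helper14.Sep.Stm

/-!
# Project SE (helper14): job ORI
-/

set_option autoImplicit false

namespace Pool.Agent.V5helper6.SE

open Matrix hiding row
open Filter Pool.Agent.V5helper14.Hel Pool.Agent.V5helper14.Sep
open scoped Topology

theorem css_last {n : ℕ} (i : Fin (n + 1)) : i.castSucc.succAbove (Fin.last n) = Fin.last (n + 1) := by
  rw [Fin.succAbove_of_le_castSucc _ _ (Fin.castSucc_le_castSucc_iff.2 (Fin.le_last i)), Fin.succ_last]

theorem liftP_castSucc {n m : ℕ} (Γ : ℝ) (p : Fin n → Fin m → ℝ) (i : Fin n) :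
    liftP Γ p i.castSucc = liftPt (Γ ^ (i : ℕ)) (p i) := by
  unfold liftP; rw [Fin.snoc_castSucc]

theorem liftP_last {n m : ℕ} (Γ : ℝ) (p : Fin n → Fin m → ℝ) :
    liftP Γ p (Fin.last n) = apex m := by
  unfold liftP; rw [Fin.snoc_last]

theorem lift_row {k : ℕ} (γ : ℝ) (hγ : 0 < γ) (X : Fin k → ℝ) :
    row (liftPt γ X) 0 - row (liftPt γ X) (Fin.last (k + 1)) = (1 + γ)⁻¹ * row X 0 ∧
    (∀ b : Fin k, row (liftPt γ X) b.succ.castSucc = (1 + γ)⁻¹ * row X b.succ) ∧
    row (liftPt γ X) (Fin.last (k + 1)) = (1 + γ)⁻¹ * γ := by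
  have h1 : row (liftPt γ X) (Fin.last (k + 1)) = (1 + γ)⁻¹ * γ := by
    rw [← Fin.succ_last]; unfold row; rw [Fin.cons_succ]; unfold liftPt; rw [Fin.snoc_last]
  refine ⟨?_, ?_, h1⟩
  · rw [h1]; unfold row; rw [Fin.cons_zero, Fin.cons_zero]
    have : 1 + γ ≠ 0 := by positivity
    field_simp
    ring
  · intro b
    rw [← Fin.succ_castSucc]; unfold row; rw [Fin.cons_succ, Fin.cons_succ]; unfold liftPt
    rw [Fin.snoc_castSucc]

theorem apex_row {k : ℕ} :
    row (apex k) 0 - row (apex k) (Fin.last (k + 1)) = 0 ∧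
    (∀ b : Fin k, row (apex k) b.succ.castSucc = 0) ∧
    row (apex k) (Fin.last (k + 1)) = 1 := by
  have h1 : row (apex k) (Fin.last (k + 1)) = 1 := by
    rw [← Fin.succ_last]; unfold row; rw [Fin.cons_succ]; unfold apex; rw [Fin.snoc_last]
  refine ⟨?_, ?_, h1⟩
  · rw [h1]; unfold row; rw [Fin.cons_zero]; norm_num
  · intro b
    rw [← Fin.succ_castSucc]; unfold row; rw [Fin.cons_succ]; unfold apex
    rw [Fin.snoc_castSucc]; rfl

theorem main (N : ℕ) (A : Matrix (Fin (N + 2)) (Fin (N + 2)) ℝ) (s : Fin (N + 2) → ℝ)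
    (y : Fin (N + 2) → Fin (N + 1) → ℝ) (γ : Fin (N + 2) → ℝ)
    (h0 : ∀ i, A i 0 - A i (Fin.last _) = s i * y i 0)
    (h1 : ∀ i (b : Fin N), A i b.succ.castSucc = s i * y i b.succ)
    (h2 : ∀ i, A i (Fin.last _) = s i * γ i) :
    A.det = (∏ i, s i) * ∑ i : Fin (N + 2), (-1) ^ ((i : ℕ) + (N + 1)) * γ i *
      Matrix.det (Matrix.of fun a => y (i.succAbove a)) := by
  have e1 : A.det = Matrix.det (Matrix.of fun i j => s i *
      (Matrix.of fun i => (Fin.snoc (α := fun _ => ℝ) (y i) (γ i))) i j) := by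
    rw [← Matrix.det_updateCol_add_smul_self A (i := 0) (j := Fin.last (N + 1)) (by
      intro h
      have := congrArg Fin.val h
      simp at this) (-1)]
    congr 1
    ext i j
    rw [Matrix.of_apply, Matrix.of_apply]
    refine Fin.lastCases ?_ (fun b => ?_) j
    · rw [Matrix.updateCol_ne (by
        intro h
        have := congrArg Fin.val h
        simp at this), Fin.snoc_last, h2]
    · rw [Fin.snoc_castSucc]
      refine Fin.cases ?_ (fun b' => ?_) b
      · rw [Fin.castSucc_zero, Matrix.updateCol_self, ← h0]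
        simp only [neg_smul, one_smul]
        ring
      · rw [Matrix.updateCol_ne (by
          intro h
          have := congrArg Fin.val h
          simp at this), h1]
  rw [e1, Matrix.det_mul_column, Matrix.det_succ_column _ (Fin.last (N + 1))]
  congr 1
  apply Finset.sum_congr rfl
  intro i _
  rw [Matrix.of_apply, Fin.snoc_last, Fin.val_last]
  congr 2
  ext a b
  rw [Matrix.submatrix_apply, Matrix.of_apply, Matrix.of_apply, Fin.succAbove_last, Fin.snoc_castSucc]

theorem dom {N : ℕ} (c : Fin (N + 1) → ℝ) (e : Fin (N + 1) → ℕ) (he : StrictMono e)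
    (hc : c (Fin.last N) ≠ 0) :
    ∀ᶠ Γ : ℝ in atTop, SignType.sign (∑ i, c i * Γ ^ (e i)) = SignType.sign (c (Fin.last N)) := by
  have h : Tendsto (fun Γ : ℝ => ∑ i, c i * (Γ ^ (e i) / Γ ^ (e (Fin.last N)))) atTop
      (𝓝 (∑ i, c i * (if i = Fin.last N then 1 else 0))) := by
    apply tendsto_finsetSum
    intro i _
    apply Tendsto.const_mul
    split_ifs with hi
    · rw [hi]
      refine tendsto_const_nhds.congr' ?_
      filter_upwards [eventually_gt_atTop (0 : ℝ)] with Γ hΓ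
      rw [div_self (by positivity)]
    · apply tendsto_pow_div_pow_atTop_zero
      apply he
      exact lt_of_le_of_ne (Fin.le_last i) hi
  have h2 : ∑ i, c i * (if i = Fin.last N then (1 : ℝ) else 0) = c (Fin.last N) := by
    simp
  rw [h2] at h
  rcases lt_or_gt_of_ne hc with h3 | h3
  · filter_upwards [h.eventually_lt_const h3, eventually_gt_atTop (0 : ℝ)] with Γ h4 h5
    rw [sign_neg h3]
    apply sign_neg
    have : ∑ i, c i * Γ ^ (e i) = Γ ^ (e (Fin.last N)) * ∑ i, c i * (Γ ^ (e i) / Γ ^ (e (Fin.last N))) := by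
      rw [Finset.mul_sum]
      apply Finset.sum_congr rfl
      intro i _
      field_simp
    rw [this]
    exact mul_neg_of_pos_of_neg (by positivity) h4
  · filter_upwards [h.eventually_const_lt h3, eventually_gt_atTop (0 : ℝ)] with Γ h4 h5
    rw [sign_pos h3]
    apply sign_pos
    have : ∑ i, c i * Γ ^ (e i) = Γ ^ (e (Fin.last N)) * ∑ i, c i * (Γ ^ (e i) / Γ ^ (e (Fin.last N))) := by
      rw [Finset.mul_sum]
      apply Finset.sum_congr rfl
      intro i _
      field_simp
    rw [this]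
    exact mul_pos (by positivity) h4

theorem ori1 (k n : ℕ) (p : Fin n → Fin k → ℝ) (Γ : ℝ) (hΓ : 0 < Γ) (g : Fin (k + 1) → Fin n) :
    ∃ c : ℝ, 0 < c ∧ orient (liftP Γ p)
      (Fin.snoc (α := fun _ => Fin (n + 1)) (fun i => (g i).castSucc) (Fin.last n)) =
        c * orient p g := by
  refine ⟨∏ i, (1 + Γ ^ (g i : ℕ))⁻¹, Finset.prod_pos (fun i _ => by positivity), ?_⟩
  unfold orient
  rw [main k _ (Fin.snoc (α := fun _ => ℝ) (fun i => (1 + Γ ^ (g i : ℕ))⁻¹) 1)
    (Fin.snoc (α := fun _ => Fin (k + 1) → ℝ) (fun i => row (p (g i))) 0)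
    (Fin.snoc (α := fun _ => ℝ) (fun i => Γ ^ (g i : ℕ)) 1) ?_ ?_ ?_]
  · rw [Fin.prod_univ_castSucc, Fin.sum_univ_castSucc, Finset.sum_eq_zero, zero_add]
    · simp only [Fin.snoc_castSucc, Fin.snoc_last, mul_one, Fin.val_last, Fin.succAbove_last]
      rw [Even.neg_one_pow ⟨k + 1, rfl⟩, one_mul]
      rfl
    · intro i _
      rw [Matrix.det_eq_zero_of_row_eq_zero (Fin.last k), mul_zero]
      intro j
      rw [Matrix.of_apply, css_last, Fin.snoc_last]
      rfl
  · intro i
    refine Fin.lastCases ?_ (fun b => ?_) i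
    · simp only [Fin.snoc_last, Matrix.of_apply, liftP_last]
      have := (apex_row (k := k)).1
      simp only [Pi.zero_apply, mul_zero]
      exact this
    · simp only [Fin.snoc_castSucc, Matrix.of_apply, liftP_castSucc]
      exact (lift_row (Γ ^ (g b : ℕ)) (by positivity) (p (g b))).1
  · intro i b'
    refine Fin.lastCases ?_ (fun b => ?_) i
    · simp only [Fin.snoc_last, Matrix.of_apply, liftP_last]
      have := (apex_row (k := k)).2.1 b'
      simp only [Pi.zero_apply, mul_zero]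
      exact this
    · simp only [Fin.snoc_castSucc, Matrix.of_apply, liftP_castSucc]
      exact (lift_row (Γ ^ (g b : ℕ)) (by positivity) (p (g b))).2.1 b'
  · intro i
    refine Fin.lastCases ?_ (fun b => ?_) i
    · simp only [Fin.snoc_last, Matrix.of_apply, liftP_last]
      rw [mul_one]
      exact (apex_row (k := k)).2.2
    · simp only [Fin.snoc_castSucc, Matrix.of_apply, liftP_castSucc]
      exact (lift_row (Γ ^ (g b : ℕ)) (by positivity) (p (g b))).2.2

theorem ori2 (k n : ℕ) (p : Fin n → Fin k → ℝ) (f : Fin (k + 2) → Fin n) (hf : StrictMono f)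
    (h : orient p (fun i => f i.castSucc) ≠ 0) :
    ∀ᶠ Γ : ℝ in atTop, SignType.sign (orient (liftP Γ p) (fun i => (f i).castSucc)) =
      SignType.sign (orient p (fun i => f i.castSucc)) := by
  set c : Fin (k + 2) → ℝ := fun i => (-1) ^ ((i : ℕ) + (k + 1)) *
    Matrix.det (Matrix.of fun a => row (p (f (i.succAbove a)))) with hc
  have hcl : c (Fin.last (k + 1)) = orient p (fun i => f i.castSucc) := by
    simp only [hc, Fin.val_last, Fin.succAbove_last]
    rw [Even.neg_one_pow ⟨k + 1, rfl⟩, one_mul]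
    rfl
  have hd := dom c (fun i => (f i : ℕ)) (fun i j hij => hf hij) (by rw [hcl]; exact h)
  filter_upwards [hd, eventually_gt_atTop (0 : ℝ)] with Γ h1 hΓ
  rw [← hcl, ← h1]
  unfold orient
  rw [main k _ (fun i => (1 + Γ ^ (f i : ℕ))⁻¹) (fun i => row (p (f i))) (fun i => Γ ^ (f i : ℕ)) ?_ ?_ ?_]
  · rw [sign_mul, sign_pos (Finset.prod_pos (fun i _ => by positivity)), one_mul]
    congr 1
    apply Finset.sum_congr rfl
    intro i _
    simp only [hc]
    ring
  · intro i
    simp only [Matrix.of_apply, liftP_castSucc]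
    exact (lift_row (Γ ^ (f i : ℕ)) (by positivity) (p (f i))).1
  · intro i b'
    simp only [Matrix.of_apply, liftP_castSucc]
    exact (lift_row (Γ ^ (f i : ℕ)) (by positivity) (p (f i))).2.1 b'
  · intro i
    simp only [Matrix.of_apply, liftP_castSucc]
    exact (lift_row (Γ ^ (f i : ℕ)) (by positivity) (p (f i))).2.2

theorem snoc_row0 {k : ℕ} (r : Fin (k + 2) → ℝ) :
    (Fin.snoc (α := fun _ => ℝ) (-r) 0 : Fin (k + 3) → ℝ) 0 -
      (Fin.snoc (α := fun _ => ℝ) (-r) 0 : Fin (k + 3) → ℝ) (Fin.last (k + 2)) = (-1) * r 0 := by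
  rw [Fin.snoc_last, ← Fin.castSucc_zero, Fin.snoc_castSucc, Pi.neg_apply]
  ring

theorem ori3 (k n : ℕ) (X : Fin n → Fin (k + 1) → ℝ) (r : Fin (k + 2) → ℝ) (Γ : ℝ) (hΓ : 0 < Γ)
    (g : Fin (k + 1) → Fin n) :
    ∃ c : ℝ, 0 < c ∧ hdet (liftP Γ X) (Fin.snoc (α := fun _ => ℝ) (-r) 0)
      (Fin.snoc (α := fun _ => Fin (n + 1)) (fun i => (g i).castSucc) (Fin.last n)) =
        c * hdet X r g := by
  refine ⟨∏ i, (1 + Γ ^ (g i : ℕ))⁻¹, Finset.prod_pos (fun i _ => by positivity), ?_⟩
  unfold hdet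
  rw [main (k + 1) _
    (Fin.snoc (α := fun _ => ℝ) (Fin.snoc (α := fun _ => ℝ) (fun i => (1 + Γ ^ (g i : ℕ))⁻¹) 1) (-1))
    (Fin.snoc (α := fun _ => Fin (k + 2) → ℝ)
      (Fin.snoc (α := fun _ => Fin (k + 2) → ℝ) (fun i => row (X (g i))) 0) r)
    (Fin.snoc (α := fun _ => ℝ) (Fin.snoc (α := fun _ => ℝ) (fun i => Γ ^ (g i : ℕ)) 1) 0) ?_ ?_ ?_]
  · rw [Fin.prod_univ_castSucc, Fin.prod_univ_castSucc, Fin.sum_univ_castSucc, Fin.sum_univ_castSucc,
      Finset.sum_eq_zero, zero_add]
    · simp only [Fin.snoc_castSucc, Fin.snoc_last, mul_one, mul_zero, zero_mul, add_zero, Fin.val_last,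
        Fin.val_castSucc]
      rw [Odd.neg_one_pow ⟨k + 1, by ring⟩]
      have e : (Matrix.of fun a => (Fin.snoc (α := fun _ => Fin (k + 2) → ℝ)
          (Fin.snoc (α := fun _ => Fin (k + 2) → ℝ) (fun i => row (X (g i))) 0) r : Fin (k + 3) → Fin (k + 2) → ℝ)
          ((Fin.last (k + 1)).castSucc.succAbove a)) =
          Matrix.of (Fin.snoc (α := fun _ => Fin (k + 2) → ℝ) (fun i => row (X (g i))) r) := by
        ext a b
        rw [Matrix.of_apply, Matrix.of_apply]
        refine Fin.lastCases ?_ (fun a' => ?_) a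
        · rw [css_last, Fin.snoc_last, Fin.snoc_last]
        · rw [Fin.castSucc_succAbove_castSucc, Fin.succAbove_last, Fin.snoc_castSucc, Fin.snoc_castSucc,
            Fin.snoc_castSucc]
      rw [e]
      ring
    · intro i _
      rw [Matrix.det_eq_zero_of_row_eq_zero (Fin.last k).castSucc, mul_zero]
      intro j
      rw [Matrix.of_apply, Fin.castSucc_succAbove_castSucc, css_last, Fin.snoc_castSucc,
        Fin.snoc_last]
      rfl
  · intro i
    refine Fin.lastCases ?_ (fun b => ?_) i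
    · simp only [Fin.snoc_last, Matrix.of_apply]
      have := snoc_row0 r
      rw [Fin.snoc_last] at this
      exact this
    · refine Fin.lastCases ?_ (fun b1 => ?_) b
      · simp only [Fin.snoc_castSucc, Fin.snoc_last, Matrix.of_apply, liftP_last]
        simp only [Pi.zero_apply, mul_zero]
        exact (apex_row (k := k + 1)).1
      · simp only [Fin.snoc_castSucc, Matrix.of_apply, liftP_castSucc]
        exact (lift_row (Γ ^ (g b1 : ℕ)) (by positivity) (X (g b1))).1
  · intro i b'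
    refine Fin.lastCases ?_ (fun b => ?_) i
    · simp only [Fin.snoc_last, Matrix.of_apply, Fin.snoc_castSucc, Pi.neg_apply]
      ring
    · refine Fin.lastCases ?_ (fun b1 => ?_) b
      · simp only [Fin.snoc_castSucc, Fin.snoc_last, Matrix.of_apply, liftP_last]
        simp only [Pi.zero_apply, mul_zero]
        exact (apex_row (k := k + 1)).2.1 b'
      · simp only [Fin.snoc_castSucc, Matrix.of_apply, liftP_castSucc]
        exact (lift_row (Γ ^ (g b1 : ℕ)) (by positivity) (X (g b1))).2.1 b'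
  · intro i
    refine Fin.lastCases ?_ (fun b => ?_) i
    · simp only [Fin.snoc_last, Matrix.of_apply, mul_zero]
    · refine Fin.lastCases ?_ (fun b1 => ?_) b
      · simp only [Fin.snoc_castSucc, Fin.snoc_last, Matrix.of_apply, liftP_last]
        rw [mul_one]
        exact (apex_row (k := k + 1)).2.2
      · simp only [Fin.snoc_castSucc, Matrix.of_apply, liftP_castSucc]
        exact (lift_row (Γ ^ (g b1 : ℕ)) (by positivity) (X (g b1))).2.2

theorem ori4 (k n : ℕ) (X : Fin n → Fin (k + 1) → ℝ) (r : Fin (k + 2) → ℝ) (f : Fin (k + 2) → Fin n)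
    (hf : StrictMono f) (h : hdet X r (fun i => f i.castSucc) ≠ 0) :
    ∀ᶠ Γ : ℝ in atTop, SignType.sign (hdet (liftP Γ X) (Fin.snoc (α := fun _ => ℝ) (-r) 0)
      (fun i => (f i).castSucc)) = SignType.sign (hdet X r (fun i => f i.castSucc)) := by
  set c : Fin (k + 2) → ℝ := fun i => (-1) ^ ((i : ℕ) + (k + 1)) *
    Matrix.det (Matrix.of fun a => (Fin.snoc (α := fun _ => Fin (k + 2) → ℝ)
      (fun i => row (X (f i))) r : Fin (k + 3) → Fin (k + 2) → ℝ) (i.castSucc.succAbove a)) with hc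
  have hcl : c (Fin.last (k + 1)) = hdet X r (fun i => f i.castSucc) := by
    simp only [hc, Fin.val_last]
    rw [Even.neg_one_pow ⟨k + 1, rfl⟩, one_mul]
    unfold hdet
    congr 1
    ext a b
    rw [Matrix.of_apply, Matrix.of_apply]
    refine Fin.lastCases ?_ (fun a' => ?_) a
    · rw [css_last, Fin.snoc_last, Fin.snoc_last]
    · rw [Fin.castSucc_succAbove_castSucc, Fin.succAbove_last, Fin.snoc_castSucc, Fin.snoc_castSucc]
  have hd := dom c (fun i => (f i : ℕ)) (fun i j hij => hf hij) (by rw [hcl]; exact h)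
  filter_upwards [hd, eventually_gt_atTop (0 : ℝ)] with Γ h1 hΓ
  rw [← hcl, ← h1]
  unfold hdet
  rw [main (k + 1) _ (Fin.snoc (α := fun _ => ℝ) (fun i => (1 + Γ ^ (f i : ℕ))⁻¹) (-1))
    (Fin.snoc (α := fun _ => Fin (k + 2) → ℝ) (fun i => row (X (f i))) r)
    (Fin.snoc (α := fun _ => ℝ) (fun i => Γ ^ (f i : ℕ)) 0) ?_ ?_ ?_]
  · rw [Fin.prod_univ_castSucc, Fin.sum_univ_castSucc]
    simp only [Fin.snoc_castSucc, Fin.snoc_last, mul_zero, zero_mul, add_zero, Fin.val_castSucc]
    have e : (∏ i, (1 + Γ ^ (f i : ℕ))⁻¹) * (-1) * ∑ i : Fin (k + 2), (-1) ^ ((i : ℕ) + (k + 1 + 1)) * Γ ^ (f i : ℕ) *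
        Matrix.det (Matrix.of fun a => (Fin.snoc (α := fun _ => Fin (k + 2) → ℝ)
          (fun i => row (X (f i))) r : Fin (k + 3) → Fin (k + 2) → ℝ) (i.castSucc.succAbove a)) =
        (∏ i, (1 + Γ ^ (f i : ℕ))⁻¹) * ∑ i, c i * Γ ^ (f i : ℕ) := by
      rw [mul_assoc]
      congr 1
      rw [Finset.mul_sum]
      apply Finset.sum_congr rfl
      intro i _
      simp only [hc]
      rw [show (i : ℕ) + (k + 1 + 1) = ((i : ℕ) + (k + 1)) + 1 by ring, pow_succ (-1 : ℝ) ((i : ℕ) + (k + 1))]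
      ring
    rw [e, sign_mul, sign_pos (Finset.prod_pos (fun i _ => by positivity)), one_mul]
  · intro i
    refine Fin.lastCases ?_ (fun b => ?_) i
    · simp only [Fin.snoc_last, Matrix.of_apply]
      have := snoc_row0 r
      rw [Fin.snoc_last] at this
      exact this
    · simp only [Fin.snoc_castSucc, Matrix.of_apply, liftP_castSucc]
      exact (lift_row (Γ ^ (f b : ℕ)) (by positivity) (X (f b))).1
  · intro i b'
    refine Fin.lastCases ?_ (fun b => ?_) i
    · simp only [Fin.snoc_last, Matrix.of_apply, Fin.snoc_castSucc, Pi.neg_apply]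
      ring
    · simp only [Fin.snoc_castSucc, Matrix.of_apply, liftP_castSucc]
      exact (lift_row (Γ ^ (f b : ℕ)) (by positivity) (X (f b))).2.1 b'
  · intro i
    refine Fin.lastCases ?_ (fun b => ?_) i
    · simp only [Fin.snoc_last, Matrix.of_apply, mul_zero]
    · simp only [Fin.snoc_castSucc, Matrix.of_apply, liftP_castSucc]
      exact (lift_row (Γ ^ (f b : ℕ)) (by positivity) (X (f b))).2.2

theorem t_ORI : S_ORI :=
  ⟨ori1, ori2, ori3, ori4⟩

end Pool.Agent.V5helper6.SE
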